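import Pool.Agent.Y242.LW.Stm

/-!
# LW: the abstract lemma on maximal chains
-/

open Set Filter Topology

namespace LW242

/-- The limit from below in a maximal chain. -/
theorem chain_half {α : Type} (le : α → α → Prop) (ℓ : α → ℝ) (C : Set α) (b₀ : α)
    (hmono : ∀ p q, le p q → ℓ p ≤ ℓ q)
    (hstr : ∀ p q, le p q → ℓ p = ℓ q → le q p)
    (cmp : ∀ p ∈ C, ∀ q ∈ C, le p q ∨ le q p)
    (mem : ∀ x, (∀ q ∈ C, le x q ∨ le q x) → x ∈ C)
    (hcomp : ∀ p : ℕ → α, ∃ a : α, Tendsto (fun k => ℓ (p k)) (hyperfilter ℕ) (𝓝 (ℓ a)) ∧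
      (∀ q, (∀ᶠ k in (hyperfilter ℕ : Filter ℕ), le q (p k)) → le q a) ∧
      (∀ q, (∀ᶠ k in (hyperfilter ℕ : Filter ℕ), le (p k) q) → le a q))
    (hb0 : b₀ ∈ C) (a : ℝ) (ha : ℓ b₀ < a) :
    ∃ m ∈ C, ℓ m ≤ a ∧ (∀ q ∈ C, ℓ q < a → le q m) ∧ (∀ q ∈ C, a ≤ ℓ q → le m q) := by
  classical
  set S : Set ℝ := ℓ '' {p | p ∈ C ∧ ℓ p < a} with hS
  have hSne : S.Nonempty := ⟨ℓ b₀, b₀, ⟨hb0, ha⟩, rfl⟩
  have hSb : BddAbove S := by
    refine ⟨a, ?_⟩
    rintro _ ⟨p, ⟨_, hp⟩, rfl⟩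
    exact hp.le
  have hle : ∀ q ∈ C, ℓ q < a → ℓ q ≤ sSup S := fun q hq h => le_csSup hSb ⟨q, ⟨hq, h⟩, rfl⟩
  have hsa : sSup S ≤ a := by
    apply csSup_le hSne
    rintro _ ⟨p, ⟨_, hp⟩, rfl⟩
    exact hp.le
  have hex : ∀ k : ℕ, ∃ p : α, p ∈ C ∧ ℓ p < a ∧ sSup S - 1 / ((k : ℝ) + 1) < ℓ p := by
    intro k
    have h1 : sSup S - 1 / ((k : ℝ) + 1) < sSup S := by
      have : (0 : ℝ) < 1 / ((k : ℝ) + 1) := by positivity
      linarith
    obtain ⟨_, ⟨p, ⟨hpC, hpa⟩, rfl⟩, hp⟩ := exists_lt_of_lt_csSup hSne h1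
    exact ⟨p, hpC, hpa, hp⟩
  choose p hpC hpa hps using hex
  obtain ⟨m, hm1, hm2, hm3⟩ := hcomp p
  have hlim : Tendsto (fun k => ℓ (p k)) atTop (𝓝 (sSup S)) := by
    have h0 : Tendsto (fun k : ℕ => sSup S - 1 / ((k : ℝ) + 1)) atTop (𝓝 (sSup S)) := by
      have := tendsto_one_div_add_atTop_nhds_zero_nat (𝕜 := ℝ)
      have h2 := (tendsto_const_nhds (x := sSup S)).sub this
      simpa using h2
    exact tendsto_of_tendsto_of_tendsto_of_le_of_le h0 tendsto_const_nhds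
      (fun k => (hps k).le) (fun k => hle _ (hpC k) (hpa k))
  have hms : ℓ m = sSup S := tendsto_nhds_unique hm1 (hlim.mono_left Nat.hyperfilter_le_atTop)
  have hup : ∀ q ∈ C, a ≤ ℓ q → le m q := by
    intro q hq haq
    apply hm3
    refine Eventually.of_forall (fun k => ?_)
    rcases cmp _ (hpC k) _ hq with h | h
    · exact h
    · have := hmono _ _ h
      have := hpa k
      linarith
  have hdn : ∀ q ∈ C, ℓ q < a → le q m := by
    intro q hq hqa
    rcases lt_or_eq_of_le (hle q hq hqa) with h | h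
    · apply hm2
      have h1 : ∀ᶠ k in (hyperfilter ℕ : Filter ℕ), ℓ q < ℓ (p k) :=
        (hlim.mono_left Nat.hyperfilter_le_atTop).eventually (lt_mem_nhds h)
      filter_upwards [h1] with k hk
      rcases cmp _ (hpC k) _ hq with h' | h'
      · have := hmono _ _ h'
        linarith
      · exact h'
    · have h1 : le m q := by
        apply hm3
        refine Eventually.of_forall (fun k => ?_)
        rcases cmp _ (hpC k) _ hq with h' | h'
        · exact h'
        · have h2 := hmono _ _ h'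
          have h3 := hle _ (hpC k) (hpa k)
          exact hstr _ _ h' (by linarith)
      exact hstr _ _ h1 (by rw [hms, h])
  refine ⟨m, ?_, by rw [hms]; exact hsa, hdn, hup⟩
  apply mem
  intro q hq
  rcases lt_or_ge (ℓ q) a with h | h
  · exact Or.inr (hdn q hq h)
  · exact Or.inl (hup q hq h)

theorem chain_all : S_CHAIN := by
  classical
  intro α le ℓ b₀ b₁ hrefl htrans hmono hstr hb0 hb1 hcomp hdens
  obtain ⟨C, hCm⟩ : ∃ C : Set α, IsMaxChain le C := ⟨_, maxChain_spec⟩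
  have cmp : ∀ p ∈ C, ∀ q ∈ C, le p q ∨ le q p := by
    intro p hp q hq
    by_cases h : p = q
    · left; rw [h]; exact hrefl q
    · exact hCm.1 hp hq h
  have mem : ∀ x, (∀ q ∈ C, le x q ∨ le q x) → x ∈ C := by
    intro x hx
    have h1 : IsChain le (insert x C) := hCm.1.insert (fun b hb _ => hx b hb)
    have h2 := hCm.2 h1 (Set.subset_insert x C)
    rw [h2]; exact Set.mem_insert x C
  have hb0C : b₀ ∈ C := mem _ (fun q _ => Or.inl (hb0 q))
  have hb1C : b₁ ∈ C := mem _ (fun q _ => Or.inr (hb1 q))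
  have key : ∀ a ∈ Icc (ℓ b₀) (ℓ b₁), ∃ p ∈ C, ℓ p = a := by
    intro a ha
    by_contra hcon
    push Not at hcon
    have h0 : ℓ b₀ < a := lt_of_le_of_ne ha.1 (hcon _ hb0C)
    have h1 : a < ℓ b₁ := lt_of_le_of_ne ha.2 (fun h => hcon _ hb1C h.symm)
    obtain ⟨m, hmC, hma, hm1, hm2⟩ :=
      chain_half le ℓ C b₀ hmono hstr cmp mem hcomp hb0C a h0
    obtain ⟨M, hMC, hMa, hM1, hM2⟩ :=
      chain_half (fun p q => le q p) (fun p => - ℓ p) C b₁
        (fun p q h => neg_le_neg (hmono _ _ h))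
        (fun p q h h' => hstr _ _ h (by linarith))
        (fun p hp q hq => (cmp p hp q hq).symm)
        (fun x hx => mem x (fun q hq => (hx q hq).symm))
        (fun p => by
          obtain ⟨c, hc1, hc2, hc3⟩ := hcomp p
          exact ⟨c, hc1.neg, hc3, hc2⟩)
        hb1C (-a) (by linarith)
    have hma' : ℓ m < a := lt_of_le_of_ne hma (hcon _ hmC)
    have hMa' : a < ℓ M := lt_of_le_of_ne (by linarith) (fun h => hcon _ hMC h.symm)
    have hmM : le m M := hm2 M hMC hMa'.le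
    obtain ⟨r, hr1, hr2, hr3, hr4⟩ := hdens m M hmM (by linarith)
    have hrC : r ∈ C := by
      apply mem
      intro q hq
      rcases lt_trichotomy (ℓ q) a with h | h | h
      · exact Or.inr (htrans _ _ _ (hm1 q hq h) hr1)
      · exact absurd h (hcon q hq)
      · exact Or.inl (htrans _ _ _ hr2 (hM1 q hq (by linarith)))
    rcases lt_trichotomy (ℓ r) a with h | h | h
    · have := hmono _ _ (hm1 r hrC h)
      linarith
    · exact hcon r hrC h
    · have := hmono _ _ (hM1 r hrC (by linarith))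
      linarith
  have : Nonempty α := ⟨b₀⟩
  choose! P hPC hP using key
  refine ⟨P, hP, ?_⟩
  intro a ha b hb hab
  rcases cmp _ (hPC a ha) _ (hPC b hb) with h | h
  · exact h
  · have h1 := hmono _ _ h
    rw [hP a ha, hP b hb] at h1
    have : a = b := le_antisymm hab h1
    subst this
    exact hrefl _

end LW242
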