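import Pool.Agent.Y242.LW.Stm
import Pool.Agent.Helper859.Br.B0

/-!
# LW: transition maps between nested data, strict monotonicity of the size
-/

open Set Filter Topology Complex Metric LW242

namespace Pool.Agent.Y389.LW.ORho

open Pool.Agent.Helper859.Br.B0

theorem isOpen_Hp : IsOpen Hp := isOpen_lt continuous_const Complex.continuous_im

theorem iy_mem {y : ℝ} (hy : 0 < y) : (y : ℂ) * I ∈ Hp := by
  simp [Hp, hy]

theorem re_div_iy (w : ℂ) (y : ℝ) : (w / ((y : ℂ) * I)).re = w.im / y := by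
  have h : w / ((y : ℂ) * I) = (w / I) / (y : ℂ) := by
    rw [mul_comm, div_mul_eq_div_div]
  rw [h, Complex.div_ofReal_re, Complex.div_I]
  simp

theorem iy_tendsto : Tendsto (fun y : ℝ => (y : ℂ) * I) atTop (NTI 1) := by
  rw [NTI, tendsto_inf]
  constructor
  · rw [tendsto_comap_iff]
    refine tendsto_id.congr' ?_
    filter_upwards [eventually_gt_atTop 0] with y hy
    simp [abs_of_pos hy]
  · rw [tendsto_principal]
    filter_upwards [eventually_gt_atTop 0] with y hy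
    refine ⟨iy_mem hy, ?_⟩
    simp [abs_of_pos hy]

theorem nti_of {w : ℝ → ℂ} {c : ℝ} (hc : 0 < c)
    (hw : Tendsto (fun y : ℝ => w y / ((y : ℂ) * I)) atTop (𝓝 (c : ℂ))) :
    Tendsto w atTop (NTI 2) := by
  have hn : Tendsto (fun y : ℝ => ‖w y / ((y : ℂ) * I)‖) atTop (𝓝 c) := by
    have := hw.norm
    rwa [Complex.norm_real, Real.norm_of_nonneg hc.le] at this
  have hr : Tendsto (fun y : ℝ => (w y / ((y : ℂ) * I)).re) atTop (𝓝 c) := by
    exact (Complex.continuous_re.tendsto _).comp hw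
  have e1 : ∀ y : ℝ, 0 < y → ‖w y / ((y : ℂ) * I)‖ * y = ‖w y‖ := by
    intro y hy
    rw [norm_div, norm_mul, Complex.norm_I, mul_one, Complex.norm_real, Real.norm_of_nonneg hy.le]
    field_simp
  have e2 : ∀ y : ℝ, 0 < y → (w y / ((y : ℂ) * I)).re * y = (w y).im := by
    intro y hy
    rw [re_div_iy]
    field_simp
  rw [NTI, tendsto_inf]
  constructor
  · rw [tendsto_comap_iff]
    refine (hn.pos_mul_atTop hc tendsto_id).congr' ?_
    filter_upwards [eventually_gt_atTop 0] with y hy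
    exact e1 y hy
  · rw [tendsto_principal]
    have h2 : Tendsto (fun y : ℝ => 2 * (w y / ((y : ℂ) * I)).re) atTop (𝓝 (2 * c)) :=
      hr.const_mul 2
    have h3 := hn.eventually_lt h2 (by linarith)
    filter_upwards [eventually_gt_atTop 0, h3] with y hy h4
    have h5 := norm_nonneg (w y / ((y : ℂ) * I))
    constructor
    · show 0 < (w y).im
      rw [← e2 y hy]
      exact mul_pos (by linarith) hy
    · show ‖w y‖ ≤ 2 * (w y).im
      rw [← e1 y hy, ← e2 y hy, ← mul_assoc]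
      exact mul_le_mul_of_nonneg_right h4.le hy.le

theorem le_of_lim {g : ℂ → ℂ} {c c' : ℝ}
    (hg : Tendsto (fun y : ℝ => g (y * I) / (y * I)) atTop (𝓝 (c' : ℂ)))
    (h : ∀ z ∈ Hp, c * z.im ≤ (g z).im) : c ≤ c' := by
  have hr : Tendsto (fun y : ℝ => (g (y * I) / ((y : ℂ) * I)).re) atTop (𝓝 c') := by
    exact (Complex.continuous_re.tendsto _).comp hg
  refine ge_of_tendsto hr ?_
  filter_upwards [eventually_gt_atTop 0] with y hy
  rw [re_div_iy, le_div_iff₀ hy]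
  have := h _ (iy_mem hy)
  simpa using this

theorem dat_lim (hJ : S_JWC) {n : ℕ} {φ : ℂ → ℂ} {c : ℝ} {x A : ℕ → ℝ} (hB : Base n φ c x A)
    {f g : ℂ → ℂ} {ζ : ℕ → ℝ} (hD : Dat n φ c x A f g ζ) :
    Tendsto (fun y : ℝ => g (y * I) / (y * I)) atTop (𝓝 (c : ℂ)) := by
  obtain ⟨cf, -, -, hf⟩ := hJ f hD.f_uni.1 (fun z hz => le_of_lt (hD.f_uni.2.1 hz))
  obtain ⟨cg, -, -, hg⟩ := hJ g hD.g_uni.1 (fun z hz => le_of_lt (hD.g_uni.2.1 hz))
  have g1 : Tendsto (fun y : ℝ => g (y * I) / (y * I)) atTop (𝓝 (cg : ℂ)) :=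
    (hg 1).comp iy_tendsto
  have f1 : Tendsto (fun y : ℝ => f (y * I) / (y * I)) atTop (𝓝 (cf : ℂ)) :=
    (hf 1).comp iy_tendsto
  have hcg : c ≤ cg := le_of_lim g1 hD.g_im
  have hcf : 1 ≤ cf := le_of_lim f1 (fun z hz => by rw [one_mul]; exact hD.f_im z hz)
  have hc : 0 < cg := by linarith [hB.one_le]
  have f2 : Tendsto (fun y : ℝ => f (g (y * I)) / g (y * I)) atTop (𝓝 (cf : ℂ)) :=
    (hf 2).comp (nti_of hc g1)
  have p1 := f2.mul g1
  have p2 : Tendsto (fun y : ℝ => φ (y * I) / (y * I)) atTop (𝓝 ((cf : ℂ) * (cg : ℂ))) := by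
    refine p1.congr' ?_
    filter_upwards [eventually_gt_atTop 0] with y hy
    have h1 := hD.g_uni.2.1 (iy_mem hy)
    have h2 : g (y * I) ≠ 0 := by
      intro h0
      rw [h0] at h1
      simp [Hp] at h1
    rw [hD.comp _ (iy_mem hy)]
    field_simp
  have h3 := tendsto_nhds_unique hB.lim p2
  have h4 : c = cf * cg := by exact_mod_cast h3
  have h5 : cg = c := by
    have : cg ≤ cf * cg := by nlinarith
    linarith
  rw [← h5]
  exact g1

theorem tO (_hSP : S_SP) (hJ : S_JWC) (_hJI : S_JINF) : S_O := by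
  intro n φ c x A hB f g ζ f' g' ζ' hD hD' hsub
  have hmem : ∀ z ∈ Hp, f z ∈ f' '' Hp := fun z hz => hsub (mem_image_of_mem f hz)
  have hH1 : ∀ z ∈ Hp, Function.invFunOn f' Hp (f z) ∈ Hp := fun z hz =>
    Function.invFunOn_mem (hmem z hz)
  have hH2 : ∀ z ∈ Hp, f' (Function.invFunOn f' Hp (f z)) = f z := fun z hz =>
    Function.invFunOn_eq (hmem z hz)
  have hd : DifferentiableOn ℂ (fun z => Function.invFunOn f' Hp (f z)) Hp :=
    (b0_diff isOpen_Hp hD'.f_uni.1 hD'.f_uni.2.2).comp hD.f_uni.1 hmem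
  have hU : Uni (fun z => Function.invFunOn f' Hp (f z)) := by
    refine ⟨hd, hH1, ?_⟩
    intro z hz w hw hzw
    apply hD.f_uni.2.2 hz hw
    rw [← hH2 z hz, ← hH2 w hw]
    exact congrArg f' hzw
  have hg : ∀ z ∈ Hp, Function.invFunOn f' Hp (f (g z)) = g' z := by
    intro z hz
    apply hD'.f_uni.2.2 (hH1 _ (hD.g_uni.2.1 hz)) (hD'.g_uni.2.1 hz)
    rw [hH2 _ (hD.g_uni.2.1 hz), hD.comp z hz, hD'.comp z hz]
  obtain ⟨ch, -, hch1, hch2⟩ := hJ _ hd (fun z hz => le_of_lt (hH1 z hz))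
  have hc0 : (0 : ℝ) < c := by linarith [hB.one_le]
  have l1 := dat_lim hJ hB hD
  have l2 := dat_lim hJ hB hD'
  have l3 : Tendsto (fun y : ℝ => Function.invFunOn f' Hp (f (g (y * I))) / g (y * I)) atTop
      (𝓝 (ch : ℂ)) := (hch2 2).comp (nti_of hc0 l1)
  have hcc : (c : ℂ) ≠ 0 := by exact_mod_cast hc0.ne'
  have l4 := l2.div l1 hcc
  rw [div_self hcc] at l4
  have l5 : Tendsto (fun y : ℝ => Function.invFunOn f' Hp (f (g (y * I))) / g (y * I)) atTop
      (𝓝 (1 : ℂ)) := by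
    refine l4.congr' ?_
    filter_upwards [eventually_gt_atTop 0] with y hy
    rw [hg _ (iy_mem hy)]
    have h1 : ((y : ℂ) * I) ≠ 0 := by
      have : (y : ℂ) ≠ 0 := by exact_mod_cast hy.ne'
      exact mul_ne_zero this I_ne_zero
    simp only [Pi.div_apply]
    rw [div_div_div_cancel_right₀ h1]
  have h6 := tendsto_nhds_unique l3 l5
  have h7 : ch = 1 := by exact_mod_cast h6
  subst h7
  refine ⟨_, hU, hH2, hg, ?_, ?_⟩
  · intro z hz
    have := hch1 z hz
    rwa [one_mul] at this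
  · intro M
    have := hch2 M
    rwa [Complex.ofReal_one] at this

/-! ### The size -/

/-- the Cayley map sending `a` to `0` -/
noncomputable def Cy (a z : ℂ) : ℂ := (z - a) / (z - (starRingEnd ℂ) a)

/-- its inverse -/
noncomputable def Dy (a ω : ℂ) : ℂ := (a - (starRingEnd ℂ) a * ω) / (1 - ω)

theorem den_ne {a z : ℂ} (ha : a ∈ Hp) (hz : z ∈ Hp) : z - (starRingEnd ℂ) a ≠ 0 := by
  intro h
  have h1 := congrArg Complex.im h
  simp only [Hp, Set.mem_ofPred_eq] at ha hz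
  simp only [Complex.sub_im, Complex.conj_im, Complex.zero_im] at h1
  linarith

theorem nsq (a z : ℂ) : ‖z - (starRingEnd ℂ) a‖ ^ 2 = ‖z - a‖ ^ 2 + 4 * z.im * a.im := by
  rw [← Complex.normSq_eq_norm_sq, ← Complex.normSq_eq_norm_sq, Complex.normSq_apply,
    Complex.normSq_apply]
  simp only [Complex.sub_im, Complex.conj_im, Complex.sub_re, Complex.conj_re]
  ring

theorem Cy_mem {a z : ℂ} (ha : a ∈ Hp) (hz : z ∈ Hp) : Cy a z ∈ ball (0 : ℂ) 1 := by
  rw [mem_ball_zero_iff, Cy, norm_div, div_lt_one (norm_pos_iff.2 (den_ne ha hz))]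
  have h := nsq a z
  have h1 : 0 < 4 * z.im * a.im := by
    simp only [Hp, Set.mem_ofPred_eq] at ha hz
    positivity
  refine lt_of_pow_lt_pow_left₀ 2 (norm_nonneg _) ?_
  linarith

theorem one_sub_ne {ω : ℂ} (h : ω ∈ ball (0 : ℂ) 1) : 1 - ω ≠ 0 := by
  intro h0
  have : ω = 1 := by linear_combination -h0
  rw [this, mem_ball_zero_iff] at h
  simp at h

theorem Dy_mem {a ω : ℂ} (ha : a ∈ Hp) (h : ω ∈ ball (0 : ℂ) 1) : Dy a ω ∈ Hp := by
  have h1 := one_sub_ne h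
  show 0 < (Dy a ω).im
  have h2 : (Dy a ω).im * Complex.normSq (1 - ω) = a.im * (1 - ‖ω‖ ^ 2) := by
    have h3 : Dy a ω = (a - (starRingEnd ℂ) a * ω) * (starRingEnd ℂ) (1 - ω) /
        ((Complex.normSq (1 - ω) : ℝ) : ℂ) := by
      rw [Dy, ← Complex.mul_conj]
      have h4 : (starRingEnd ℂ) (1 - ω) ≠ 0 := by
        rw [Ne, map_eq_zero]
        exact h1
      field_simp
    have h5 : Complex.normSq (1 - ω) ≠ 0 := by
      rw [Ne, Complex.normSq_eq_zero]
      exact h1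
    rw [h3, Complex.div_ofReal_im, div_mul_cancel₀ _ h5, ← Complex.normSq_eq_norm_sq,
      Complex.normSq_apply]
    simp
    ring
  have h6 : 0 < Complex.normSq (1 - ω) := Complex.normSq_pos.2 h1
  have h7 : 0 < a.im * (1 - ‖ω‖ ^ 2) := by
    rw [mem_ball_zero_iff] at h
    have : 0 < a.im := ha
    have : 0 < 1 - ‖ω‖ ^ 2 := by nlinarith [norm_nonneg ω]
    positivity
  rw [← h2] at h7
  by_contra hcon
  push Not at hcon
  nlinarith

theorem Cy_Dy {a ω : ℂ} (ha : a ∈ Hp) (h : ω ∈ ball (0 : ℂ) 1) : Cy a (Dy a ω) = ω := by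
  have h1 := one_sub_ne h
  have h2 : a - (starRingEnd ℂ) a ≠ 0 := den_ne ha ha
  have h3 : Dy a ω - a = ω * (a - (starRingEnd ℂ) a) / (1 - ω) := by
    rw [Dy]
    field_simp
    ring
  have h4 : Dy a ω - (starRingEnd ℂ) a = (a - (starRingEnd ℂ) a) / (1 - ω) := by
    rw [Dy]
    field_simp
    ring
  rw [Cy, h3, h4]
  field_simp

theorem Cy_inj {a z w : ℂ} (ha : a ∈ Hp) (hz : z ∈ Hp) (hw : w ∈ Hp) (h : Cy a z = Cy a w) :
    z = w := by
  rw [Cy, Cy, div_eq_div_iff (den_ne ha hz) (den_ne ha hw)] at h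
  have h2 : a - (starRingEnd ℂ) a ≠ 0 := den_ne ha ha
  apply mul_right_cancel₀ h2
  linear_combination h

theorem Dy_zero (a : ℂ) : Dy a 0 = a := by simp [Dy]

theorem Dy_hasDerivAt (a : ℂ) {ω : ℂ} (h : ω ∈ ball (0 : ℂ) 1) :
    HasDerivAt (Dy a) ((a - (starRingEnd ℂ) a) / (1 - ω) ^ 2) ω := by
  have h1 := one_sub_ne h
  have h2 : HasDerivAt (fun ω : ℂ => a - (starRingEnd ℂ) a * ω) (-((starRingEnd ℂ) a)) ω := by
    simpa using ((hasDerivAt_id ω).const_mul ((starRingEnd ℂ) a)).const_sub a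
  have h3 : HasDerivAt (fun ω : ℂ => 1 - ω) (-1) ω := by
    simpa using (hasDerivAt_id ω).const_sub 1
  have h4 := h2.div h3 h1
  refine h4.congr_deriv ?_
  field_simp
  ring

theorem Cy_hasDerivAt {a z : ℂ} (ha : a ∈ Hp) (hz : z ∈ Hp) :
    HasDerivAt (Cy a) ((a - (starRingEnd ℂ) a) / (z - (starRingEnd ℂ) a) ^ 2) z := by
  have h1 := den_ne ha hz
  have h2 : HasDerivAt (fun z : ℂ => z - a) 1 z := by
    simpa using (hasDerivAt_id z).sub_const a
  have h3 : HasDerivAt (fun z : ℂ => z - (starRingEnd ℂ) a) 1 z := by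
    simpa using (hasDerivAt_id z).sub_const ((starRingEnd ℂ) a)
  have h4 := h2.div h3 h1
  refine h4.congr_deriv ?_
  field_simp
  ring

/-- infinitesimal Schwarz–Pick -/
theorem inf_sp (hSP : S_SP) {h : ℂ → ℂ} (hh : Uni h) {w : ℂ} (hw : w ∈ Hp) :
    ‖deriv h w‖ * w.im ≤ (h w).im := by
  have hd : HasDerivAt h (deriv h w) w :=
    (hh.1.differentiableAt (isOpen_Hp.mem_nhds hw)).hasDerivAt
  have hw0 : 0 < w.im := hw
  have hhw : 0 < (h w).im := hh.2.1 hw
  have h1 := (hasDerivAt_iff_tendsto_slope.1 hd).norm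
  have h2 : Tendsto (fun z => ‖slope h w z‖ ^ 2 * z.im * w.im) (𝓝[≠] w)
      (𝓝 (‖deriv h w‖ ^ 2 * w.im * w.im)) :=
    ((h1.pow 2).mul ((Complex.continuous_im.tendsto w).mono_left nhdsWithin_le_nhds)).mul_const _
  have h3 : Tendsto (fun z => (h z).im * (h w).im) (𝓝[≠] w) (𝓝 ((h w).im * (h w).im)) := by
    refine Tendsto.mul_const _ ?_
    exact (Complex.continuous_im.tendsto _).comp
      (hd.continuousAt.tendsto.mono_left nhdsWithin_le_nhds)
  have h4 : ‖deriv h w‖ ^ 2 * w.im * w.im ≤ (h w).im * (h w).im := by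
    refine le_of_tendsto_of_tendsto h2 h3 ?_
    have h5 : ∀ᶠ z in 𝓝[≠] w, z ∈ Hp := nhdsWithin_le_nhds (isOpen_Hp.mem_nhds hw)
    filter_upwards [h5, self_mem_nhdsWithin] with z hz hne
    have hne' : z - w ≠ 0 := sub_ne_zero.2 hne
    have h6 := hSP h hh.1 (fun z hz => le_of_lt (hh.2.1 hz)) z hz w hw
    have h7 : ‖slope h w z‖ * ‖z - w‖ = ‖h z - h w‖ := by
      rw [slope_def_field, norm_div]
      have := norm_pos_iff.2 hne'
      field_simp
    rw [← h7] at h6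
    have h8 : 0 < ‖z - w‖ ^ 2 := by
      have := norm_pos_iff.2 hne'
      positivity
    refine le_of_mul_le_mul_left ?_ h8
    calc ‖z - w‖ ^ 2 * (‖slope h w z‖ ^ 2 * z.im * w.im)
        = (‖slope h w z‖ * ‖z - w‖) ^ 2 * z.im * w.im := by ring
      _ ≤ ‖z - w‖ ^ 2 * (h z).im * (h w).im := h6
      _ = ‖z - w‖ ^ 2 * ((h z).im * (h w).im) := by ring
  refine le_of_sq_le_sq ?_ hhw.le
  nlinarith [h4]

theorem surj_of_eq {h : ℂ → ℂ} (hh : Uni h) {w : ℂ} (hw : w ∈ Hp)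
    (he : ‖deriv h w‖ * w.im = (h w).im) : h '' Hp = Hp := by
  have hw0 : 0 < w.im := hw
  have hb : h w ∈ Hp := hh.2.1 hw
  have hd : HasDerivAt h (deriv h w) w :=
    (hh.1.differentiableAt (isOpen_Hp.mem_nhds hw)).hasDerivAt
  set H : ℂ → ℂ := fun ω => Cy (h w) (h (Dy w ω)) with hH
  have hHd : DifferentiableOn ℂ H (ball 0 1) := by
    intro ω hω
    have h1 := Dy_mem hw hω
    have h2 := hh.1.differentiableAt (isOpen_Hp.mem_nhds h1)
    have h3 := (Dy_hasDerivAt w hω).differentiableAt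
    have h4 := (Cy_hasDerivAt hb (hh.2.1 h1)).differentiableAt
    exact ((h4.comp (Dy w ω) h2).comp ω h3).differentiableWithinAt
  have hHm : MapsTo H (ball 0 1) (ball 0 1) := fun ω hω => Cy_mem hb (hh.2.1 (Dy_mem hw hω))
  have hH0 : H 0 = 0 := by
    simp only [hH, Dy_zero, Cy, sub_self, zero_div]
  have h0m : (0 : ℂ) ∈ ball (0 : ℂ) 1 := mem_ball_self one_pos
  have hHder : HasDerivAt H ((h w - (starRingEnd ℂ) (h w)) / (h w - (starRingEnd ℂ) (h w)) ^ 2 *
      deriv h w * ((w - (starRingEnd ℂ) w) / (1 - 0) ^ 2)) 0 := by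
    have h1 := Dy_hasDerivAt w h0m
    have h2 : HasDerivAt h (deriv h w) (Dy w 0) := by rw [Dy_zero]; exact hd
    have h3 : HasDerivAt (Cy (h w)) ((h w - (starRingEnd ℂ) (h w)) /
        (h w - (starRingEnd ℂ) (h w)) ^ 2) (h (Dy w 0)) := by
      rw [Dy_zero]; exact Cy_hasDerivAt hb hb
    exact (h3.comp _ h2).comp _ h1
  have hnorm : ‖deriv H 0‖ = 1 := by
    rw [hHder.deriv]
    have e1 : ∀ a : ℂ, ‖a - (starRingEnd ℂ) a‖ = 2 * |a.im| := by
      intro a
      rw [Complex.sub_conj, norm_mul, Complex.norm_I, mul_one, Complex.norm_real, Real.norm_eq_abs,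
        abs_mul, abs_two]
    have hb0 : 0 < (h w).im := hb
    rw [norm_mul, norm_mul, norm_div, norm_div, norm_pow, e1, e1, abs_of_pos hb0, abs_of_pos hw0,
      sub_zero, one_pow, norm_one, div_one]
    have hb' : (h w).im ≠ 0 := hb0.ne'
    have hd' : ‖deriv h w‖ ≠ 0 := by
      intro h0
      rw [h0, zero_mul] at he
      exact hb' he.symm
    rw [← he]
    field_simp
  have hds : ‖dslope H 0 0‖ = 1 / 1 := by rw [dslope_same, hnorm]; norm_num
  have hmaps : MapsTo H (ball 0 1) (closedBall (H 0) 1) := by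
    rw [hH0]
    exact fun ω hω => ball_subset_closedBall (hHm hω)
  obtain ⟨C, hC1, hC2⟩ := Complex.affine_of_mapsTo_ball_of_exists_norm_dslope_eq_div' hHd hmaps
    ⟨0, h0m, hds⟩
  rw [div_one] at hC1
  apply Subset.antisymm
  · rintro _ ⟨z, hz, rfl⟩
    exact hh.2.1 hz
  · intro p hp
    have hC0 : C ≠ 0 := by
      rw [← norm_pos_iff, hC1]
      exact one_pos
    have hω : Cy (h w) p / C ∈ ball (0 : ℂ) 1 := by
      rw [mem_ball_zero_iff, norm_div, hC1, div_one, ← mem_ball_zero_iff]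
      exact Cy_mem hb hp
    refine ⟨Dy w (Cy (h w) p / C), Dy_mem hw hω, ?_⟩
    apply Cy_inj hb (hh.2.1 (Dy_mem hw hω)) hp
    have h1 := hC2 hω
    simp only [hH0, zero_add, sub_zero, smul_eq_mul] at h1
    rw [div_mul_cancel₀ _ hC0] at h1
    exact h1

theorem tR (hSP : S_SP) : S_RHO := by
  intro g h g' hg hh hc
  have hI : I ∈ Hp := by simp [Hp]
  have hw : g I ∈ Hp := hg.2.1 hI
  have hw0 : 0 < (g I).im := hw
  have hb0 : 0 < (h (g I)).im := hh.2.1 hw
  have hd : HasDerivAt g' (deriv h (g I) * deriv g I) I := by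
    have h1 : HasDerivAt h (deriv h (g I)) (g I) :=
      (hh.1.differentiableAt (isOpen_Hp.mem_nhds hw)).hasDerivAt
    have h2 : HasDerivAt g (deriv g I) I :=
      (hg.1.differentiableAt (isOpen_Hp.mem_nhds hI)).hasDerivAt
    refine (h1.comp I h2).congr_of_eventuallyEq ?_
    filter_upwards [isOpen_Hp.mem_nhds hI] with z hz
    exact (hc z hz).symm
  have hg0 : 0 < ‖deriv g I‖ := norm_pos_iff.2 (b0_dnz isOpen_Hp hg.1 hg.2.2 hI)
  have hsp := inf_sp hSP hh hw
  have e1 : rho g' = ‖deriv h (g I)‖ * ‖deriv g I‖ / (h (g I)).im := by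
    rw [rho, hd.deriv, norm_mul, hc I hI]
  have e2 : rho g = ‖deriv g I‖ / (g I).im := rfl
  constructor
  · rw [e1, e2, div_le_div_iff₀ hb0 hw0]
    nlinarith
  · intro he
    apply surj_of_eq hh hw
    rw [e1, e2, div_eq_div_iff hb0.ne' hw0.ne'] at he
    apply mul_right_cancel₀ hg0.ne'
    linarith

end Pool.Agent.Y389.LW.ORho
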